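import Mathlib
import Pool.Agent.H29.RankInt

set_option autoImplicit false

namespace Pool.Agent.Results.MP_f8d954_co.Counter

open Pool.Agent.H29.RankInt

theorem result : ∃ (P : Type) (_ : Fintype P) (_ : PartialOrder P),
    ∀ k : ℕ, ¬ HasRankRealizer P k :=
  ⟨Ex, inferInstance, inferInstance, main⟩

end Pool.Agent.Results.MP_f8d954_co.Counter
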